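import Pool.Agent.Helper40.Nil.Stmts

set_option autoImplicit false

namespace Pool.Agent.Helper25.Nil.POLB

open Pool.Agent.Helper40.Nil

universe u

theorem polyN_one {D : Type} [AddCommGroup D] {V : Type u} [Group V] (F : ℕ → Subgroup V) :
    ∀ l k : ℕ, PolyN F l k (fun _ : D => (1 : V)) := by
  intro l
  induction l with
  | zero => intro k x; exact Subgroup.one_mem _
  | succ l ih =>
    intro k
    refine ⟨fun x => Subgroup.one_mem _, fun h => ?_⟩
    have : dd h (fun _ : D => (1 : V)) = fun _ => 1 := by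
      funext x; simp [dd]
    rw [this]
    exact ih (k + 1)

theorem poly_const {D : Type} [AddCommGroup D] {V : Type u} [Group V] (F : ℕ → Subgroup V) (g : V)
    (hg : g ∈ F 0) : Poly F 0 (fun _ : D => g) := by
  intro l
  cases l with
  | zero => intro x; exact hg
  | succ l =>
    refine ⟨fun x => hg, fun h => ?_⟩
    have : dd h (fun _ : D => g) = fun _ => 1 := by
      funext x; simp [dd]
    rw [this]
    exact polyN_one F l 1

theorem polyN_comp {D D' : Type} [AddCommGroup D] [AddCommGroup D'] {V : Type u} [Group V]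
    (F : ℕ → Subgroup V) (f : D' →+ D) (c : D) :
    ∀ (l k : ℕ) (u : D → V), PolyN F l k u → PolyN F l k (fun x => u (f x + c)) := by
  intro l
  induction l with
  | zero => intro k u hu x; exact hu _
  | succ l ih =>
    intro k u hu
    refine ⟨fun x => hu.1 _, fun h => ?_⟩
    have : dd h (fun x => u (f x + c)) = fun x => dd (f h) u (f x + c) := by
      funext x
      simp only [dd]
      rw [map_add, add_right_comm]
    rw [this]
    exact ih (k + 1) _ (hu.2 (f h))

theorem st_POLB (hL : ST_LEIB.{u}) : ST_POLB.{u} := by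
  intro D _ V _ u hu
  obtain ⟨F, hF⟩ := hu
  refine ⟨?_, ?_, ?_⟩
  · rintro g ⟨c, hc⟩
    have hg : g⁻¹ ∈ F.F 0 := by
      rw [← hc]
      exact Subgroup.inv_mem _ (hF 0 c)
    exact ⟨F, (hL D V F 0 u (fun _ => g⁻¹) hF (poly_const F.F _ hg)).1⟩
  · have h2 : Poly F.F 0 (fun p : D × D => u p.2) := by
      intro l
      have := polyN_comp F.F (AddMonoidHom.snd D D) 0 l 0 u (hF l)
      simpa using this
    have h1 : Poly F.F 0 (fun p : D × D => u p.1) := by
      intro l
      have := polyN_comp F.F (AddMonoidHom.fst D D) 0 l 0 u (hF l)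
      simpa using this
    have h1' := (hL (D × D) V F 0 _ _ h1 h1).2
    exact ⟨F, (hL (D × D) V F 0 _ _ h2 h1').1⟩
  · intro h
    have h2 : Poly F.F 0 (fun x : D => u (x + h)) := by
      intro l
      have := polyN_comp F.F (AddMonoidHom.id D) h l 0 u (hF l)
      simpa using this
    have h1' := (hL D V F 0 _ _ hF hF).2
    exact ⟨F, (hL D V F 0 _ _ h2 h1').1⟩

end Pool.Agent.Helper25.Nil.POLB
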