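import Pool.Agent.Helper40.Nil.Stmts

set_option autoImplicit false

namespace Pool.Agent.Helper25.Nil.TORF

open Pool.Agent.Helper40.Nil

universe u

theorem fin_aux (e : ℕ) (he : 1 ≤ e) (G : Type u) [Group G] [Group.IsNilpotent G] :
    Group.FG G → (∀ g : G, g ^ e = 1) → Finite G := by
  refine Group.nilpotent_center_quotient_ind
    (P := fun G _ _ => Group.FG G → (∀ g : G, g ^ e = 1) → Finite G) G ?_ ?_
  · intro G _ _ _ _
    infer_instance
  · intro G _ _ ih hfg hexp
    haveI : Group.FG G := hfg
    have hQ : Finite (G ⧸ Subgroup.center G) := by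
      apply ih
      · exact QuotientGroup.fg (Subgroup.center G)
      · intro g
        induction g using QuotientGroup.induction_on with
        | H g =>
          rw [← QuotientGroup.mk_pow, hexp g, QuotientGroup.mk_one]
    haveI : (Subgroup.center G).FiniteIndex := Subgroup.finiteIndex_of_finite_quotient
    have hZ : Group.FG (Subgroup.center G) := inferInstance
    have hZfin : Finite (Subgroup.center G) := by
      letI : CommGroup (Subgroup.center G) :=
        { (inferInstance : Group (Subgroup.center G)) with
          mul_comm := fun a b => Subtype.ext ((Subgroup.mem_center_iff.1 b.2) a.1) }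
      haveI : Group.FG (Subgroup.center G) := hZ
      apply CommGroup.finite_of_fg_isMulTorsion
      intro z
      rw [isOfFinOrder_iff_pow_eq_one]
      exact ⟨e, by omega, Subtype.ext (by simpa using hexp z)⟩
    exact Finite.of_equiv _ (Subgroup.groupEquivQuotientProdSubgroup (s := Subgroup.center G)).symm

instance pw_normal (V : Type u) [Group V] (e : ℕ) : (pw V e).Normal := by
  constructor
  intro n hn g
  unfold pw at hn ⊢
  refine Subgroup.closure_induction (p := fun x _ => g * x * g⁻¹ ∈ Subgroup.closure (Set.range fun y : V => y ^ e))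
    ?_ ?_ ?_ ?_ hn
  · rintro x ⟨y, rfl⟩
    apply Subgroup.subset_closure
    exact ⟨g * y * g⁻¹, by simp [conj_pow]⟩
  · simp
  · intro x y _ _ hx hy
    have : g * (x * y) * g⁻¹ = (g * x * g⁻¹) * (g * y * g⁻¹) := by group
    rw [this]
    exact Subgroup.mul_mem _ hx hy
  · intro x _ hx
    have : g * x⁻¹ * g⁻¹ = (g * x * g⁻¹)⁻¹ := by group
    rw [this]
    exact Subgroup.inv_mem _ hx

theorem st_TORF : ST_TORF.{u} := by
  intro V _ hnil hfg e he
  haveI : Group.IsNilpotent V := hnil
  haveI : Group.FG V := hfg
  have hfin : Finite (V ⧸ pw V e) := by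
    apply fin_aux e he
    · exact QuotientGroup.fg (pw V e)
    · intro g
      induction g using QuotientGroup.induction_on with
      | H g =>
        rw [← QuotientGroup.mk_pow, QuotientGroup.eq_one_iff]
        exact Subgroup.subset_closure ⟨g, rfl⟩
  exact Subgroup.finiteIndex_of_finite_quotient

end Pool.Agent.Helper25.Nil.TORF
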